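import Pool.Agent.Helper9.CN.Final

set_option autoImplicit false

/-!
Polynomial growth of the continuation of the L-series of the congruent number curves, by the
functional equations of the theta series and the Phragmen-Lindelof principle.
-/

namespace Pool.Agent.Helper60.BSDL2

open Complex Metric Set MeasureTheory Filter Topology Asymptotics
open scoped ComplexConjugate Real
open Pool.Agent.Helper9.BSD Pool.Agent.Helper9.CN HurwitzZeta

lemma norm_Gamma_le {s : ℂ} (hs : 0 < s.re) : ‖Gamma s‖ ≤ Real.Gamma s.re := by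
  rw [Complex.Gamma_eq_integral hs, Real.Gamma_eq_integral hs]
  unfold Complex.GammaIntegral
  refine (norm_integral_le_integral_norm _).trans (le_of_eq ?_)
  refine setIntegral_congr_fun measurableSet_Ioi fun x hx => ?_
  have hx' : (0 : ℝ) < x := hx
  rw [norm_mul, Complex.norm_cpow_eq_rpow_re_of_pos hx', Complex.norm_real,
    Real.norm_of_nonneg (Real.exp_pos _).le]
  simp

/-- `1 / Γ` is of exponential growth in the strip. -/
lemma exists_inv_Gamma : ∃ K : ℝ, 0 < K ∧ ∀ s : ℂ, 0 ≤ s.re → s.re ≤ 2 → 1 ≤ |s.im| →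
    ‖(Gamma s)⁻¹‖ ≤ K * Real.exp (π * |s.im|) := by
  have hc : ContinuousOn Real.Gamma (Icc 2 4) := by
    intro x hx
    refine (Real.differentiableAt_Gamma fun m => ?_).continuousAt.continuousWithinAt
    have h1 := hx.1
    have h2 : (0 : ℝ) ≤ m := Nat.cast_nonneg m
    linarith
  obtain ⟨K, hK⟩ := isCompact_Icc.exists_bound_of_continuousOn hc
  refine ⟨|K| + 1, by positivity, fun s h0 h2 hi => ?_⟩
  have hin : ∀ x : ℝ, 1 ≤ ‖(x : ℂ) - s‖ := by
    intro x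
    refine hi.trans ?_
    have := Complex.abs_im_le_norm ((x : ℂ) - s)
    simpa using this
  have hne : ∀ x : ℝ, (x : ℂ) - s ≠ 0 := by
    intro x h
    have := hin x
    rw [h, norm_zero] at this
    linarith
  have h1 := hin 1
  have h2' := hin 2
  have h3' := hin 3
  have n1 := hne 1
  have n2 := hne 2
  have n3 := hne 3
  push_cast at h1 h2' h3' n1 n2 n3
  -- the shift
  have hG : Gamma (4 - s) = (3 - s) * ((2 - s) * ((1 - s) * Gamma (1 - s))) := by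
    rw [show (4 - s : ℂ) = (3 - s) + 1 by ring, Complex.Gamma_add_one _ n3,
      show (3 - s : ℂ) = (2 - s) + 1 by ring, Complex.Gamma_add_one _ n2,
      show (2 - s : ℂ) = (1 - s) + 1 by ring, Complex.Gamma_add_one _ n1]
  have hb : ‖Gamma (4 - s)‖ ≤ |K| := by
    have hre : (4 - s : ℂ).re = 4 - s.re := by simp
    have h4 : 0 < (4 - s : ℂ).re := by rw [hre]; linarith
    refine (norm_Gamma_le h4).trans ?_
    rw [hre]
    have h5 := hK (4 - s.re) ⟨by linarith, by linarith⟩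
    exact (le_abs_self _).trans (h5.trans (le_abs_self _))
  have hb1 : ‖Gamma (1 - s)‖ ≤ |K| := by
    rw [hG, norm_mul, norm_mul, norm_mul] at hb
    refine le_trans ?_ hb
    have h6 : ‖Gamma (1 - s)‖ ≤ ‖1 - s‖ * ‖Gamma (1 - s)‖ :=
      le_mul_of_one_le_left (norm_nonneg _) h1
    have h7 : ‖1 - s‖ * ‖Gamma (1 - s)‖ ≤ ‖2 - s‖ * (‖1 - s‖ * ‖Gamma (1 - s)‖) :=
      le_mul_of_one_le_left (by positivity) h2'
    have h8 : ‖2 - s‖ * (‖1 - s‖ * ‖Gamma (1 - s)‖)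
        ≤ ‖3 - s‖ * (‖2 - s‖ * (‖1 - s‖ * ‖Gamma (1 - s)‖)) :=
      le_mul_of_one_le_left (by positivity) h3'
    linarith
  have hrefl := Complex.Gamma_mul_Gamma_one_sub s
  have hsin : ‖Complex.sin (π * s)‖ ≤ Real.exp (π * |s.im|) := by
    have e := Complex.two_sin (π * s)
    have h9 : ‖2 * Complex.sin (π * s)‖ ≤ 2 * Real.exp (π * |s.im|) := by
      rw [e]
      rw [norm_mul, Complex.norm_I, mul_one]
      refine (norm_sub_le _ _).trans ?_
      rw [Complex.norm_exp, Complex.norm_exp]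
      have e1 : (-(↑π * s) * I).re = π * s.im := by simp
      have e2 : ((↑π * s) * I).re = -(π * s.im) := by simp
      rw [e1, e2, two_mul]
      have hpi := Real.pi_pos
      have h10 : s.im ≤ |s.im| := le_abs_self _
      have h11 : -s.im ≤ |s.im| := neg_le_abs _
      refine add_le_add ?_ ?_ <;> refine Real.exp_le_exp.mpr ?_ <;> nlinarith
    rw [norm_mul] at h9
    norm_num at h9
    linarith
  -- conclusion
  have hs0 : Complex.sin (π * s) ≠ 0 := by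
    intro h
    rw [Complex.sin_eq_zero_iff] at h
    obtain ⟨k, hk⟩ := h
    have hpi : (π : ℂ) ≠ 0 := by exact_mod_cast Real.pi_ne_zero
    have h12 : s = k := by
      have : (π : ℂ) * s = π * k := by rw [hk]; ring
      exact mul_left_cancel₀ hpi this
    rw [h12] at hi
    simp at hi
    linarith
  have hGne : Gamma s ≠ 0 := by
    intro h
    rw [h, zero_mul] at hrefl
    have hpi : (π : ℂ) ≠ 0 := by exact_mod_cast Real.pi_ne_zero
    exact (div_ne_zero hpi hs0) hrefl.symm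
  have hinv : (Gamma s)⁻¹ = Gamma (1 - s) * Complex.sin (π * s) / π := by
    have hpi : (π : ℂ) ≠ 0 := by exact_mod_cast Real.pi_ne_zero
    rw [eq_div_iff hs0] at hrefl
    have key : ∀ S : ℂ, Gamma s * Gamma (1 - s) * S = π → (Gamma s)⁻¹ = Gamma (1 - s) * S / π := by
      intro S h
      field_simp
      linear_combination -h
    exact key _ hrefl
  rw [hinv, norm_div, norm_mul, Complex.norm_real, Real.norm_of_nonneg Real.pi_pos.le]
  rw [div_le_iff₀ Real.pi_pos]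
  have hpi3 := Real.pi_gt_three
  have hE := Real.exp_pos (π * |s.im|)
  have : ‖Gamma (1 - s)‖ * ‖Complex.sin (π * s)‖ ≤ |K| * Real.exp (π * |s.im|) := by
    gcongr
  nlinarith [abs_nonneg K, mul_nonneg (abs_nonneg K) hE.le]

lemma hasSum_prodCC {f g : ℤ → ℂ} {F G : ℂ} (hf : HasSum f F) (hg : HasSum g G) :
    HasSum (fun w : ℤ × ℤ => f w.1 * g w.2) (F * G) :=
  hf.mul hg (summable_mul_of_summable_norm hf.summable.norm hg.summable.norm)

lemma hasSum_fourC {f g f' g' : ℤ → ℂ} {F G F' G' : ℂ} (hf : HasSum f F) (hg : HasSum g G)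
    (hf' : HasSum f' F') (hg' : HasSum g' G') :
    HasSum (fun w : ℤ × ℤ => f w.1 * g w.2 + I * (f' w.1 * g' w.2)) (F * G + I * (F' * G')) :=
  (hasSum_prodCC hf hg).add ((hasSum_prodCC hf' hg').mul_left I)

/-- The coefficient of the dual theta series. -/
noncomputable def gA (a b : ℝ) (w : ℤ × ℤ) : ℂ :=
  (-I * ((w.1 : ℂ) + I * (w.2 : ℂ))) * (cexp (2 * π * I * a * w.1) * cexp (2 * π * I * b * w.2))

lemma norm_gA (a b : ℝ) (w : ℤ × ℤ) : ‖gA a b w‖ = ((w.1 : ℝ) ^ 2 + (w.2 : ℝ) ^ 2) ^ (1 / 2 : ℝ) := by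
  have e := norm_lin (w.1 : ℝ) (w.2 : ℝ)
  rw [Complex.ofReal_intCast, Complex.ofReal_intCast] at e
  have e1 : ∀ (c : ℝ) (k : ℤ), ‖cexp (2 * π * I * c * k)‖ = 1 := by
    intro c k
    rw [show (2 * π * I * c * k : ℂ) = ((2 * π * c * k : ℝ) : ℂ) * I by push_cast; ring]
    exact Complex.norm_exp_ofReal_mul_I _
  unfold gA
  rw [norm_mul, norm_mul, norm_mul, e1, e1, e, norm_neg, Complex.norm_I]
  ring

lemma th_termG (a b t : ℝ) (w : ℤ × ℤ) :
    gA a b w * ((Real.exp (-π * ((w.1 : ℝ) ^ 2 + (w.2 : ℝ) ^ 2) * t) : ℝ) : ℂ)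
    = (-I * (w.1 : ℂ) * cexp (2 * π * I * a * w.1) * ((Real.exp (-π * (w.1 : ℝ) ^ 2 * t) : ℝ) : ℂ))
        * (cexp (2 * π * I * b * w.2) * ((Real.exp (-π * (w.2 : ℝ) ^ 2 * t) : ℝ) : ℂ))
      + I * ((cexp (2 * π * I * a * w.1) * ((Real.exp (-π * (w.1 : ℝ) ^ 2 * t) : ℝ) : ℂ))
        * (-I * (w.2 : ℂ) * cexp (2 * π * I * b * w.2) * ((Real.exp (-π * (w.2 : ℝ) ^ 2 * t) : ℝ) : ℂ))) := by
  have e : Real.exp (-π * ((w.1 : ℝ) ^ 2 + (w.2 : ℝ) ^ 2) * t)
      = Real.exp (-π * (w.1 : ℝ) ^ 2 * t) * Real.exp (-π * (w.2 : ℝ) ^ 2 * t) := by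
    rw [← Real.exp_add]; congr 1; ring
  rw [e, Complex.ofReal_mul]
  unfold gA
  ring

/-- The sum formula for the dual theta series. -/
lemma hasSum_thG (a b : ℝ) {t : ℝ} (ht : 0 < t) :
    HasSum (fun w : ℤ × ℤ => gA a b w * ((Real.exp (-π * ((w.1 : ℝ) ^ 2 + (w.2 : ℝ) ^ 2) * t) : ℝ) : ℂ))
      (thG (a : UnitAddCircle) (b : UnitAddCircle) t) := by
  have h := hasSum_fourC (hasSum_int_sinKernel a ht) (hasSum_int_cosKernel b ht)
    (hasSum_int_cosKernel a ht) (hasSum_int_sinKernel b ht)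
  rw [funext (th_termG a b t)]
  exact h

lemma summable_gA (a b : ℝ) {s : ℂ} (hs : 3 / 2 < s.re) :
    Summable (fun w : ℤ × ℤ => ‖gA a b w‖ / ((w.1 : ℝ) ^ 2 + (w.2 : ℝ) ^ 2) ^ s.re) := by
  refine (summable_sq_rpow hs).congr fun w => ?_
  rw [norm_gA]
  have h0 : 0 ≤ (w.1 : ℝ) ^ 2 + (w.2 : ℝ) ^ 2 := by positivity
  rcases h0.lt_or_eq with h | h
  · rw [Real.rpow_sub h]
  · rw [← h, Real.zero_rpow (by linarith), Real.zero_rpow (by norm_num), zero_div]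

lemma norm_mellin_thG_le (a b : ℝ) {s : ℂ} (hs : 3 / 2 < s.re) :
    ‖mellin (thG (a : UnitAddCircle) (b : UnitAddCircle)) s‖
      ≤ π ^ (-s.re) * ‖Gamma s‖ * ∑' w : ℤ × ℤ, ((w.1 : ℝ) ^ 2 + (w.2 : ℝ) ^ 2) ^ (1 / 2 - s.re) := by
  have hs0 : 0 < s.re := by linarith
  have hm := hasSum_mellin_pi_mul (a := gA a b) (q := fun w : ℤ × ℤ => (w.1 : ℝ) ^ 2 + (w.2 : ℝ) ^ 2)
    (s := s) (F := thG (a : UnitAddCircle) (b : UnitAddCircle)) (fun w => by
      have h0 : 0 ≤ (w.1 : ℝ) ^ 2 + (w.2 : ℝ) ^ 2 := by positivity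
      rcases h0.lt_or_eq with h | h
      · exact Or.inr h
      · left
        rw [← norm_eq_zero, norm_gA, ← h, Real.zero_rpow (by norm_num)]) hs0
    (fun t ht => hasSum_thG a b (mem_Ioi.mp ht)) (summable_gA a b hs)
  have e : ∀ w : ℤ × ℤ, ‖(π : ℂ) ^ (-s) * Gamma s * gA a b w
      / (((w.1 : ℝ) ^ 2 + (w.2 : ℝ) ^ 2 : ℝ) : ℂ) ^ s‖
      = π ^ (-s.re) * ‖Gamma s‖ * ((w.1 : ℝ) ^ 2 + (w.2 : ℝ) ^ 2) ^ (1 / 2 - s.re) := by
    intro w
    rw [norm_div, norm_mul, norm_mul, Complex.norm_cpow_eq_rpow_re_of_pos Real.pi_pos, norm_gA]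
    rw [Complex.neg_re, mul_div_assoc]
    congr 1
    have h0 : 0 ≤ (w.1 : ℝ) ^ 2 + (w.2 : ℝ) ^ 2 := by positivity
    rcases h0.lt_or_eq with h | h
    · rw [Complex.norm_cpow_eq_rpow_re_of_pos h, Real.rpow_sub h]
    · rw [← h, Real.zero_rpow (show (1 / 2 : ℝ) ≠ 0 by norm_num), zero_div,
        Real.zero_rpow (show (1 / 2 - s.re : ℝ) ≠ 0 by linarith)]
  have hS : Summable (fun w : ℤ × ℤ => ‖(π : ℂ) ^ (-s) * Gamma s * gA a b w
      / (((w.1 : ℝ) ^ 2 + (w.2 : ℝ) ^ 2 : ℝ) : ℂ) ^ s‖) := by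
    rw [funext e]
    exact (summable_sq_rpow hs).mul_left _
  rw [← hm.tsum_eq]
  refine (norm_tsum_le_tsum_norm hS).trans (le_of_eq ?_)
  rw [funext e, tsum_mul_left]

lemma mellin_feq (a b : UnitAddCircle) (s : ℂ) :
    mellin (thF a b) (2 - s) = mellin (thG a b) s := by
  have h := (thPair a b).functional_equation s
  rw [(isStrong_thPair a b).Λ_eq, (isStrong_thPair a b).symm_Λ_eq] at h
  have hk : (((thPair a b).k : ℝ) : ℂ) = 2 := by
    simp [thPair]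
  rw [hk] at h
  simpa [thPair] using h

/-- The completed function divided by the Gamma factor grows at most quadratically on the line `re s = 0`. -/
lemma exists_line (a b : ℝ) : ∃ C : ℝ, 0 < C ∧ ∀ s : ℂ, s.re = 0 →
    ‖(Gamma s)⁻¹ * mellin (thF (a : UnitAddCircle) (b : UnitAddCircle)) s‖ ≤ C * (1 + |s.im|) ^ 2 := by
  set S : ℝ := ∑' w : ℤ × ℤ, ((w.1 : ℝ) ^ 2 + (w.2 : ℝ) ^ 2) ^ (1 / 2 - (2 : ℝ)) with hS
  have hS0 : 0 ≤ S := tsum_nonneg fun w => by positivity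
  refine ⟨S + 1, by positivity, fun s hs => ?_⟩
  have h2 : (2 - s : ℂ).re = 2 := by simp [hs]
  have hm := norm_mellin_thG_le a b (s := 2 - s) (by rw [h2]; norm_num)
  rw [← mellin_feq, sub_sub_cancel, h2] at hm
  by_cases hG : Gamma s = 0
  · rw [hG, inv_zero, zero_mul, norm_zero]
    positivity
  have hs0 : s ≠ 0 := by
    intro h
    exact hG (by rw [h, Complex.Gamma_zero])
  have h1s : (1 - s : ℂ) ≠ 0 := by
    intro h
    have := congrArg Complex.re h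
    simp [hs] at this
  have hGam : Gamma (2 - s) = (1 - s) * (-s * Gamma (-s)) := by
    rw [show (2 - s : ℂ) = (1 - s) + 1 by ring, Complex.Gamma_add_one _ h1s,
      show (1 - s : ℂ) = -s + 1 by ring, Complex.Gamma_add_one _ (neg_ne_zero.mpr hs0)]
  have hconj : conj s = -s := by
    apply Complex.ext
    · simp [hs]
    · simp
  have hn : ‖Gamma (-s)‖ = ‖Gamma s‖ := by
    rw [← hconj, Complex.Gamma_conj, Complex.norm_conj]
  have hGn : 0 < ‖Gamma s‖ := norm_pos_iff.mpr hG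
  have hsn : ‖s‖ ≤ 1 + |s.im| := by
    have := Complex.norm_le_abs_re_add_abs_im s
    rw [hs, abs_zero] at this
    linarith
  have hsn' : ‖1 - s‖ ≤ 1 + |s.im| := by
    have := Complex.norm_le_abs_re_add_abs_im (1 - s)
    simp [hs] at this
    linarith
  rw [hGam, norm_mul, norm_mul, norm_neg, hn] at hm
  rw [norm_mul, norm_inv]
  rw [inv_mul_le_iff₀ hGn]
  refine hm.trans ?_
  have hpi : π ^ (-(2 : ℝ)) ≤ 1 := by
    refine Real.rpow_le_one_of_one_le_of_nonpos ?_ (by norm_num)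
    linarith [Real.pi_gt_three]
  have hpi0 : 0 ≤ π ^ (-(2 : ℝ)) := by positivity
  have e1 : ‖1 - s‖ * (‖s‖ * ‖Gamma s‖) ≤ (1 + |s.im|) * ((1 + |s.im|) * ‖Gamma s‖) := by
    gcongr
  have e2 : π ^ (-(2 : ℝ)) * (‖1 - s‖ * (‖s‖ * ‖Gamma s‖)) ≤
      1 * ((1 + |s.im|) * ((1 + |s.im|) * ‖Gamma s‖)) := by
    gcongr
  calc π ^ (-(2 : ℝ)) * (‖1 - s‖ * (‖s‖ * ‖Gamma s‖)) * S
      ≤ 1 * ((1 + |s.im|) * ((1 + |s.im|) * ‖Gamma s‖)) * (S + 1) := by
        gcongr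
        linarith
    _ = ‖Gamma s‖ * ((S + 1) * (1 + |s.im|) ^ 2) := by ring

/-- The Mellin transform of the theta series is bounded in the strip. -/
lemma exists_strip (a b : UnitAddCircle) : ∃ C : ℝ, 0 < C ∧ ∀ s : ℂ, 0 ≤ s.re → s.re ≤ 2 →
    ‖mellin (thF a b) s‖ ≤ C := by
  have hc : ∀ s : ℂ, MellinConvergent (thF a b) s := fun s => ((isStrong_thPair a b).hasMellin s).1
  have h0 : IntegrableOn (fun t : ℝ => ‖thF a b t‖ * t ^ (-1 : ℝ)) (Ioi 0) := by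
    have := (hc 0).norm
    refine (integrableOn_congr_fun (fun t ht => ?_) measurableSet_Ioi).mp this
    have ht' : (0 : ℝ) < t := ht
    simp only [smul_eq_mul]
    rw [norm_mul, Complex.norm_cpow_eq_rpow_re_of_pos ht']
    simp [mul_comm]
  have h2 : IntegrableOn (fun t : ℝ => ‖thF a b t‖ * t ^ (1 : ℝ)) (Ioi 0) := by
    have := (hc 2).norm
    refine (integrableOn_congr_fun (fun t ht => ?_) measurableSet_Ioi).mp this
    have ht' : (0 : ℝ) < t := ht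
    simp only [smul_eq_mul]
    rw [norm_mul, Complex.norm_cpow_eq_rpow_re_of_pos ht']
    norm_num
    ring
  have hI := h0.add h2
  set K : ℝ := ∫ t in Ioi (0 : ℝ), (‖thF a b t‖ * t ^ (-1 : ℝ) + ‖thF a b t‖ * t ^ (1 : ℝ)) with hK
  have hK0 : 0 ≤ K := by
    refine setIntegral_nonneg measurableSet_Ioi fun t ht => ?_
    have ht' : (0 : ℝ) < t := ht
    positivity
  refine ⟨K + 1, by positivity, fun s hs0 hs2 => ?_⟩
  have : ‖mellin (thF a b) s‖ ≤ K := by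
    unfold mellin
    refine (norm_integral_le_integral_norm _).trans ?_
    refine setIntegral_mono_on (hc s).norm hI measurableSet_Ioi fun t ht => ?_
    have ht' : (0 : ℝ) < t := ht
    rw [smul_eq_mul, norm_mul, Complex.norm_cpow_eq_rpow_re_of_pos ht', ← mul_add, mul_comm]
    refine mul_le_mul_of_nonneg_left ?_ (norm_nonneg _)
    have e : (s - 1 : ℂ).re = s.re - 1 := by simp
    rw [e]
    rcases le_total t 1 with h | h
    · have := Real.rpow_le_rpow_of_exponent_ge ht' h (show (-1 : ℝ) ≤ s.re - 1 by linarith)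
      have h3 : 0 ≤ t ^ (1 : ℝ) := by positivity
      exact this.trans (le_add_of_nonneg_right h3)
    · have := Real.rpow_le_rpow_of_exponent_le h (show s.re - 1 ≤ (1 : ℝ) by linarith)
      have h3 : 0 ≤ t ^ (-1 : ℝ) := by positivity
      exact this.trans (le_add_of_nonneg_left h3)
  linarith

/-- The Phragmen-Lindelof step. -/
lemma strip_growth {F : ℂ → ℂ} (hF : Differentiable ℂ F) {C₀ C₁ C₂ : ℝ} (hC₀ : 0 < C₀) (hC₁ : 0 < C₁)
    (hC₂ : 0 < C₂)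
    (h0 : ∀ s : ℂ, s.re = 0 → ‖F s‖ ≤ C₀ * (1 + |s.im|) ^ 2)
    (h2 : ∀ s : ℂ, 2 ≤ s.re → ‖F s‖ ≤ C₁)
    (hst : ∀ s : ℂ, 0 ≤ s.re → s.re ≤ 2 → 1 ≤ |s.im| → ‖F s‖ ≤ C₂ * Real.exp (π * |s.im|)) :
    ∃ (C : ℝ) (k : ℕ), ∀ s : ℂ, 0 ≤ s.re → ‖F s‖ ≤ C * (1 + ‖s‖) ^ k := by
  have hn1 : ∀ s : ℂ, 0 ≤ s.re → 1 ≤ ‖s + 1‖ := by
    intro s hs
    have h := Complex.re_le_norm (s + 1)
    simp only [add_re, one_re] at h
    linarith
  have hne : ∀ s : ℂ, 0 ≤ s.re → s + 1 ≠ 0 := by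
    intro s hs h
    have := hn1 s hs
    rw [h, norm_zero] at this
    linarith
  have hcl : closure (re ⁻¹' Ioo (0 : ℝ) 2) ⊆ {s : ℂ | 0 ≤ s.re} := by
    refine closure_minimal (fun z hz => ?_) (isClosed_le continuous_const Complex.continuous_re)
    exact (show (0 : ℝ) < z.re from hz.1).le
  have hdiff : DiffContOnCl ℂ (fun s : ℂ => F s / (s + 1) ^ 2) (re ⁻¹' Ioo (0 : ℝ) 2) := by
    refine DifferentiableOn.diffContOnCl fun s hs => ?_
    have hs' : 0 ≤ s.re := hcl hs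
    refine DifferentiableAt.differentiableWithinAt ?_
    refine (hF s).div ((differentiableAt_id.add_const 1).pow 2) ?_
    exact pow_ne_zero 2 (hne s hs')
  have hpi : (1 : ℝ) < π / (2 - 0) := by
    have := Real.pi_gt_three
    linarith
  have hpl : ∀ s : ℂ, 0 ≤ s.re → s.re ≤ 2 → ‖F s / (s + 1) ^ 2‖ ≤ 2 * C₀ + C₁ := by
    intro s hs0 hs2
    refine PhragmenLindelof.vertical_strip (f := fun s : ℂ => F s / (s + 1) ^ 2) (a := 0) (b := 2) hdiff ⟨1, hpi, π, ?_⟩ ?_ ?_ hs0 hs2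
    · refine IsBigO.of_bound C₂ ?_
      have e1 : ∀ᶠ z : ℂ in comap (_root_.abs ∘ im) atTop ⊓ 𝓟 (re ⁻¹' Ioo (0 : ℝ) 2), 1 ≤ |z.im| := by
        refine Filter.Eventually.filter_mono inf_le_left ?_
        exact (Filter.tendsto_comap (f := (_root_.abs ∘ im : ℂ → ℝ)) (x := atTop)).eventually_ge_atTop 1
      have e2 : ∀ᶠ z : ℂ in comap (_root_.abs ∘ im) atTop ⊓ 𝓟 (re ⁻¹' Ioo (0 : ℝ) 2),
          z ∈ re ⁻¹' Ioo (0 : ℝ) 2 := mem_inf_of_right (mem_principal_self _)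
      filter_upwards [e1, e2] with z hz1 hz2
      have hz0 : (0 : ℝ) < z.re := hz2.1
      have hz3 : z.re < 2 := hz2.2
      rw [norm_div, norm_pow, Real.norm_of_nonneg (Real.exp_pos _).le]
      have h3 : ‖F z‖ / ‖z + 1‖ ^ 2 ≤ ‖F z‖ :=
        div_le_self (norm_nonneg _) (one_le_pow₀ (hn1 z hz0.le))
      refine h3.trans ((hst z hz0.le hz3.le hz1).trans ?_)
      refine mul_le_mul_of_nonneg_left (Real.exp_le_exp.mpr ?_) hC₂.le
      refine mul_le_mul_of_nonneg_left ?_ Real.pi_pos.le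
      have := Real.add_one_le_exp (1 * |z.im|)
      linarith
    · intro z hz
      rw [norm_div, norm_pow, div_le_iff₀ (by have := hn1 z hz.ge; positivity)]
      refine (h0 z hz).trans ?_
      have h4 : ‖z + 1‖ ^ 2 = 1 + |z.im| ^ 2 := by
        rw [Complex.sq_norm, Complex.normSq_apply, add_re, add_im, one_re, one_im, hz, sq_abs]
        ring
      rw [h4]
      have h5 : (1 + |z.im|) ^ 2 ≤ 2 * (1 + |z.im| ^ 2) := by nlinarith [sq_nonneg (1 - |z.im|)]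
      have h6 : 0 ≤ C₁ * (1 + |z.im| ^ 2) := by positivity
      nlinarith
    · intro z hz
      rw [norm_div, norm_pow]
      have hz0 : 0 ≤ z.re := by rw [hz]; norm_num
      refine (div_le_self (norm_nonneg _) (one_le_pow₀ (hn1 z hz0))).trans ?_
      have := h2 z hz.ge
      linarith
  refine ⟨2 * C₀ + C₁, 2, fun s hs => ?_⟩
  rcases le_total s.re 2 with h | h
  · have h1 := hpl s hs h
    have h3 := hn1 s hs
    rw [norm_div, norm_pow, div_le_iff₀ (by positivity)] at h1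
    refine h1.trans ?_
    refine mul_le_mul_of_nonneg_left ?_ (by positivity)
    refine pow_le_pow_left₀ (norm_nonneg _) ?_ 2
    refine (norm_add_le _ _).trans ?_
    rw [norm_one, add_comm]
  · have h1 := h2 s h
    have h3 : (1 : ℝ) ≤ (1 + ‖s‖) ^ 2 := one_le_pow₀ (by linarith [norm_nonneg s])
    nlinarith

/-- The continuation, explicitly. -/
noncomputable def FF (n : ℕ) (s : ℂ) : ℂ :=
  ∑ r ∈ (Finset.range (4 * n)) ×ˢ (Finset.range (4 * n)), kap n ((r.1 : ℤ), (r.2 : ℤ)) *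
    (((4 * n : ℕ) : ℂ) ^ (1 - 2 * s) * ((π : ℂ) ^ s * (Gamma s)⁻¹
        * mellin (thF ((r.1 / (4 * n : ℕ) : ℝ) : UnitAddCircle) ((r.2 / (4 * n : ℕ) : ℝ) : UnitAddCircle)) s))

lemma differentiable_FF (n : ℕ) (hn : 0 < n) : Differentiable ℂ (FF n) := by
  have hNc : ((4 * n : ℕ) : ℂ) ≠ 0 := by exact_mod_cast (by omega : 4 * n ≠ 0)
  have hpi : (π : ℂ) ≠ 0 := by exact_mod_cast Real.pi_ne_zero
  have h1 : Differentiable ℂ (fun s : ℂ => ((4 * n : ℕ) : ℂ) ^ (1 - 2 * s)) := by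
    intro s
    exact (((differentiableAt_const _).sub ((differentiableAt_const _).mul
      differentiableAt_id))).const_cpow (Or.inl hNc)
  have h2 : Differentiable ℂ (fun s : ℂ => (π : ℂ) ^ s) := by
    intro s
    exact differentiableAt_id.const_cpow (Or.inl hpi)
  have h3 : Differentiable ℂ (fun s : ℂ => (Gamma s)⁻¹) := Complex.differentiable_one_div_Gamma
  refine Differentiable.fun_sum fun r _ => ?_
  exact (h1.mul ((h2.mul h3).mul (differentiable_mellin_thF _ _))).const_mul _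

lemma hasSum_FF (n : ℕ) (hn : 0 < n) {s : ℂ} (hs : 3 / 2 < s.re) :
    HasSum (fun w => kap n w * dTerm s w) (FF n s) := by
  refine hasSum_residues (by omega) fun r _ => ?_
  refine ((hasSum_class (N := 4 * n) (by omega) r hs).mul_left (kap n ((r.1 : ℤ), (r.2 : ℤ)))).congr_fun
    fun u => ?_
  rw [kap_periodic n r u]

lemma FF_right (n : ℕ) (hn : 0 < n) {s : ℂ} (hs : 2 ≤ s.re) :
    ‖FF n s‖ ≤ ∑' w : ℤ × ℤ, ((w.1 : ℝ) ^ 2 + (w.2 : ℝ) ^ 2) ^ (1 / 2 - (2 : ℝ)) := by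
  have hs' : 3 / 2 < s.re := by linarith
  rw [← (hasSum_FF n hn hs').tsum_eq]
  refine (norm_tsum_le_tsum_norm (summable_norm_kd n hs')).trans ?_
  refine (summable_norm_kd n hs').tsum_le_tsum (fun w => ?_) (summable_sq_rpow (by norm_num))
  rw [norm_mul, norm_dTerm (by linarith)]
  have h0 : (0 : ℤ) ≤ w.1 ^ 2 + w.2 ^ 2 := by positivity
  have hk := norm_kap_le n w
  have h1 : ‖kap n w‖ * ((w.1 : ℝ) ^ 2 + (w.2 : ℝ) ^ 2) ^ (1 / 2 - s.re)
      ≤ ((w.1 : ℝ) ^ 2 + (w.2 : ℝ) ^ 2) ^ (1 / 2 - s.re) :=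
    mul_le_of_le_one_left (by positivity) hk
  refine h1.trans ?_
  rcases h0.lt_or_eq with h | h
  · have h2 : (1 : ℤ) ≤ w.1 ^ 2 + w.2 ^ 2 := h
    have h3 : (1 : ℝ) ≤ (w.1 : ℝ) ^ 2 + (w.2 : ℝ) ^ 2 := by exact_mod_cast h2
    exact Real.rpow_le_rpow_of_exponent_le h3 (by linarith)
  · have h3 : (w.1 : ℝ) ^ 2 + (w.2 : ℝ) ^ 2 = 0 := by exact_mod_cast h.symm
    rw [h3, Real.zero_rpow (by linarith), Real.zero_rpow (by norm_num)]

lemma norm_N_le (n : ℕ) (hn : 0 < n) {s : ℂ} (hs : 0 ≤ s.re) :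
    ‖((4 * n : ℕ) : ℂ) ^ (1 - 2 * s)‖ ≤ (4 * n : ℕ) := by
  have h1 : (1 : ℝ) ≤ (4 * n : ℕ) := by exact_mod_cast (by omega : 1 ≤ 4 * n)
  have h0 : (0 : ℝ) < (4 * n : ℕ) := by linarith
  rw [← Complex.ofReal_natCast, Complex.norm_cpow_eq_rpow_re_of_pos h0]
  have e : (1 - 2 * s : ℂ).re = 1 - 2 * s.re := by simp
  rw [e]
  calc ((4 * n : ℕ) : ℝ) ^ (1 - 2 * s.re) ≤ ((4 * n : ℕ) : ℝ) ^ (1 : ℝ) :=
        Real.rpow_le_rpow_of_exponent_le h1 (by linarith)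
    _ = _ := Real.rpow_one _

lemma norm_FF_le (n : ℕ) (hn : 0 < n) {s : ℂ} (hs : 0 ≤ s.re) {B : ℕ × ℕ → ℝ}
    (hB : ∀ r : ℕ × ℕ, ‖(π : ℂ) ^ s * (Gamma s)⁻¹
        * mellin (thF ((r.1 / (4 * n : ℕ) : ℝ) : UnitAddCircle) ((r.2 / (4 * n : ℕ) : ℝ) : UnitAddCircle)) s‖
      ≤ B r) :
    ‖FF n s‖ ≤ ∑ r ∈ (Finset.range (4 * n)) ×ˢ (Finset.range (4 * n)), ((4 * n : ℕ) : ℝ) * B r := by
  unfold FF
  refine (norm_sum_le _ _).trans (Finset.sum_le_sum fun r _ => ?_)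
  rw [norm_mul, norm_mul]
  have h1 := norm_kap_le n ((r.1 : ℤ), (r.2 : ℤ))
  have h2 := norm_N_le n hn hs
  have h3 := hB r
  have h4 : 0 ≤ B r := (norm_nonneg _).trans h3
  calc _ ≤ 1 * (((4 * n : ℕ) : ℝ) * B r) := by gcongr
    _ = _ := one_mul _

/-- **P5** Polynomial growth of the continuation for the congruent number curves. -/
theorem exists_growth (n : ℕ) (hn : 0 < n) : ∃ F : ℂ → ℂ, Differentiable ℂ F ∧
    (∀ s : ℂ, 3 / 2 < s.re → F s = LE (congr n) s) ∧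
    ∃ (C : ℝ) (k : ℕ), ∀ s : ℂ, 0 ≤ s.re → ‖F s‖ ≤ C * (1 + ‖s‖) ^ k := by
  refine ⟨FF n, differentiable_FF n hn, fun s hs => ?_, ?_⟩
  · rw [LE_congr_eq n hn hs]
    exact (hasSum_cf n (hasSum_FF n hn hs)).tsum_eq.symm
  choose A hA0 hA using fun r : ℕ × ℕ => exists_line (r.1 / (4 * n : ℕ) : ℝ) (r.2 / (4 * n : ℕ) : ℝ)
  choose A' hA0' hA' using fun r : ℕ × ℕ =>
    exists_strip ((r.1 / (4 * n : ℕ) : ℝ) : UnitAddCircle) ((r.2 / (4 * n : ℕ) : ℝ) : UnitAddCircle)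
  obtain ⟨K, hK0, hK⟩ := exists_inv_Gamma
  set S := (Finset.range (4 * n)) ×ˢ (Finset.range (4 * n)) with hS
  have p0 : 0 ≤ ∑ r ∈ S, ((4 * n : ℕ) : ℝ) * A r :=
    Finset.sum_nonneg fun r _ => mul_nonneg (Nat.cast_nonneg _) (hA0 r).le
  have p2 : 0 ≤ ∑ r ∈ S, ((4 * n : ℕ) : ℝ) * (π ^ 2 * K * A' r) :=
    Finset.sum_nonneg fun r _ => by have := (hA0' r).le; positivity
  have p1 : 0 ≤ ∑' w : ℤ × ℤ, ((w.1 : ℝ) ^ 2 + (w.2 : ℝ) ^ 2) ^ (1 / 2 - (2 : ℝ)) :=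
    tsum_nonneg fun w => by positivity
  refine strip_growth (C₀ := ∑ r ∈ S, ((4 * n : ℕ) : ℝ) * A r + 1)
    (C₁ := ∑' w : ℤ × ℤ, ((w.1 : ℝ) ^ 2 + (w.2 : ℝ) ^ 2) ^ (1 / 2 - (2 : ℝ)) + 1)
    (C₂ := ∑ r ∈ S, ((4 * n : ℕ) : ℝ) * (π ^ 2 * K * A' r) + 1)
    (differentiable_FF n hn) (by linarith) (by linarith) (by linarith) (fun s hs => ?_)
    (fun s hs => ?_) (fun s hs0 hs2 hi => ?_)
  · have h1 := norm_FF_le n hn hs.ge (B := fun r => A r * (1 + |s.im|) ^ 2) (fun r => by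
      rw [mul_assoc, norm_mul, Complex.norm_cpow_eq_rpow_re_of_pos Real.pi_pos, hs, Real.rpow_zero,
        one_mul]
      exact hA r s hs)
    refine h1.trans ?_
    have e : ∑ r ∈ S, ((4 * n : ℕ) : ℝ) * (A r * (1 + |s.im|) ^ 2)
        = (∑ r ∈ S, ((4 * n : ℕ) : ℝ) * A r) * (1 + |s.im|) ^ 2 := by
      rw [Finset.sum_mul]
      exact Finset.sum_congr rfl fun r _ => by ring
    rw [e]
    gcongr
    linarith
  · have := FF_right n hn hs
    linarith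
  · have h1 := norm_FF_le n hn hs0 (B := fun r => π ^ 2 * K * A' r * Real.exp (π * |s.im|)) (fun r => by
      rw [norm_mul, norm_mul, Complex.norm_cpow_eq_rpow_re_of_pos Real.pi_pos]
      have h2 := hK s hs0 hs2 hi
      have h3 := hA' r s hs0 hs2
      have h4 : π ^ s.re ≤ π ^ 2 := by
        rw [← Real.rpow_natCast π 2]
        refine Real.rpow_le_rpow_of_exponent_le ?_ (by simpa using hs2)
        linarith [Real.pi_gt_three]
      calc _ ≤ π ^ 2 * (K * Real.exp (π * |s.im|)) * A' r := by gcongr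
        _ = _ := by ring)
    refine h1.trans ?_
    have e : ∑ r ∈ S, ((4 * n : ℕ) : ℝ) * (π ^ 2 * K * A' r * Real.exp (π * |s.im|))
        = (∑ r ∈ S, ((4 * n : ℕ) : ℝ) * (π ^ 2 * K * A' r)) * Real.exp (π * |s.im|) := by
      rw [Finset.sum_mul]
      exact Finset.sum_congr rfl fun r _ => by ring
    rw [e]
    gcongr
    linarith

end Pool.Agent.Helper60.BSDL2
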